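import Mathlib

/-!
# Pairwise compatibility does not imply compatibility for monotonic zeros

We give three even real polynomials of degree `10`, pairwise compatible, whose sum does not have
monotonic zeros in the first quadrant.
-/

open Complex

namespace Pool.Agent.Results.MP_c4a6c0_an.PairwiseNotCompatible

/-- The closed first quadrant. -/
def Q : Set ℂ := {z | 0 ≤ z.re ∧ 0 ≤ z.im}

/-- `F` is not identically zero, no two distinct zeros of `F` in the closed first quadrant have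
the same real part, and the imaginary parts are nondecreasing when the zeros are listed by
increasing real part. -/
def MonotonicZeros (F : ℂ → ℂ) : Prop :=
  (∃ z, F z ≠ 0) ∧
  ∀ α ∈ Q, ∀ β ∈ Q, F α = 0 → F β = 0 →
    (α ≠ β → α.re ≠ β.re) ∧ (α.re < β.re → α.im ≤ β.im)

/-- Every nonnegative combination that is not identically zero has monotonic zeros. -/
def Compatible {k : ℕ} (f : Fin k → ℂ → ℂ) : Prop :=
  ∀ c : Fin k → ℝ, (∀ j, 0 ≤ c j) → (∃ z, ∑ j, (c j : ℂ) * f j z ≠ 0) →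
    MonotonicZeros (fun z => ∑ j, (c j : ℂ) * f j z)

/-! ### Real quartics -/

/-- a monic real quartic -/
def qf (q3 q2 q1 q0 : ℝ) (w : ℂ) : ℂ := w ^ 4 + q3 * w ^ 3 + q2 * w ^ 2 + q1 * w + q0

lemma lin_zero {c1 c0 : ℝ} {w : ℂ} (hw : w.im ≠ 0) (h : (c1 : ℂ) * w + c0 = 0) :
    c1 = 0 ∧ c0 = 0 := by
  have him := congrArg Complex.im h
  simp at him
  have h1 : c1 = 0 := by
    rcases him with h1 | h1
    · exact h1
    · exact absurd h1 hw
  rw [h1] at h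
  simp at h
  exact ⟨h1, by exact_mod_cast h⟩

lemma sq_eq (w : ℂ) : w ^ 2 = 2 * (w.re : ℂ) * w - (normSq w : ℂ) := by
  apply Complex.ext
  · simp [pow_two, normSq_apply]; ring
  · simp [pow_two, normSq_apply]; ring

lemma quad_root {p s : ℝ} {w : ℂ} (hw : w.im ≠ 0) (h : w ^ 2 + p * w + s = 0) :
    p = -2 * w.re ∧ s = normSq w := by
  have h1 : ((p + 2 * w.re : ℝ) : ℂ) * w + ((s - normSq w : ℝ) : ℂ) = 0 := by
    rw [sq_eq] at h
    push_cast
    linear_combination h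
  obtain ⟨h2, h3⟩ := lin_zero hw h1
  exact ⟨by linarith, by linarith⟩

lemma quartic_div {q3 q2 q1 q0 : ℝ} {w : ℂ} (hw : w.im ≠ 0) (h : qf q3 q2 q1 q0 w = 0) :
    q1 = -2 * w.re * (q2 - normSq w + 2 * w.re * (q3 + 2 * w.re))
      + (q3 + 2 * w.re) * normSq w ∧
    q0 = (q2 - normSq w + 2 * w.re * (q3 + 2 * w.re)) * normSq w ∧
    ∀ v : ℂ, qf q3 q2 q1 q0 v = (v ^ 2 - 2 * w.re * v + normSq w) *
      (v ^ 2 + ((q3 + 2 * w.re : ℝ) : ℂ) * v
        + ((q2 - normSq w + 2 * w.re * (q3 + 2 * w.re) : ℝ) : ℂ)) := by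
  set u := w.re with hu
  set N := normSq w with hN
  have hw2 : w ^ 2 - 2 * (u : ℂ) * w + (N : ℂ) = 0 := by rw [sq_eq w]; ring
  have h1 : ((q1 + 2 * u * (q2 - N + 2 * u * (q3 + 2 * u)) - (q3 + 2 * u) * N : ℝ) : ℂ) * w
      + ((q0 - (q2 - N + 2 * u * (q3 + 2 * u)) * N : ℝ) : ℂ) = 0 := by
    unfold qf at h
    push_cast
    linear_combination h - (w ^ 2 + (q3 + 2 * u) * w + (q2 - N + 2 * u * (q3 + 2 * u))) * hw2
  obtain ⟨h2, h3⟩ := lin_zero hw h1
  have e1 : q1 = -2 * u * (q2 - N + 2 * u * (q3 + 2 * u)) + (q3 + 2 * u) * N := by linarith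
  have e0 : q0 = (q2 - N + 2 * u * (q3 + 2 * u)) * N := by linarith
  refine ⟨e1, e0, fun v => ?_⟩
  unfold qf
  rw [e1, e0]
  push_cast
  ring

lemma two_pairs {q3 q2 q1 q0 : ℝ} {w1 w2 : ℂ} (h1 : 0 < w1.im) (h2 : 0 < w2.im) (hne : w1 ≠ w2)
    (e1 : qf q3 q2 q1 q0 w1 = 0) (e2 : qf q3 q2 q1 q0 w2 = 0) :
    q3 + 2 * w1.re = -2 * w2.re ∧
    q2 - normSq w1 + 2 * w1.re * (q3 + 2 * w1.re) = normSq w2 ∧
    q0 = normSq w2 * normSq w1 := by
  obtain ⟨-, h4, h5⟩ := quartic_div h1.ne' e1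
  rw [h5 w2] at e2
  rcases mul_eq_zero.1 e2 with h | h
  · exfalso
    have h' : w2 ^ 2 + ((-2 * w1.re : ℝ) : ℂ) * w2 + (normSq w1 : ℂ) = 0 := by
      push_cast; linear_combination h
    obtain ⟨h6, h7⟩ := quad_root h2.ne' h'
    have h8 : w1.re = w2.re := by linarith
    rw [normSq_apply, normSq_apply, h8] at h7
    have h9 : w1.im = w2.im := by nlinarith
    exact hne (Complex.ext h8 h9)
  · obtain ⟨h6, h7⟩ := quad_root h2.ne' h
    exact ⟨h6, h7, by rw [h4, h7]⟩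

/-- The key identity for two zeros `z1`, `z2` of `q(z²)` in the open first quadrant. -/
lemma key_identity {q3 q2 q1 q0 : ℝ} {z1 z2 : ℂ} (ha1 : 0 < z1.re) (hb1 : 0 < z1.im)
    (ha2 : 0 < z2.re) (hb2 : 0 < z2.im) (hne : z1 ^ 2 ≠ z2 ^ 2)
    (e1 : qf q3 q2 q1 q0 (z1 ^ 2) = 0) (e2 : qf q3 q2 q1 q0 (z2 ^ 2) = 0) :
    4 * q2 - q3 ^ 2 - 8 * ((z1.re ^ 2 + z1.im ^ 2) * (z2.re ^ 2 + z2.im ^ 2))
      = 16 * ((z1.im ^ 2 - z2.im ^ 2) * (z1.re ^ 2 - z2.re ^ 2)) ∧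
    q0 = ((z1.re ^ 2 + z1.im ^ 2) * (z2.re ^ 2 + z2.im ^ 2)) ^ 2 := by
  have im1 : (z1 ^ 2).im = 2 * z1.re * z1.im := by simp [pow_two]; ring
  have im2 : (z2 ^ 2).im = 2 * z2.re * z2.im := by simp [pow_two]; ring
  have re1 : (z1 ^ 2).re = z1.re ^ 2 - z1.im ^ 2 := by simp [pow_two]
  have re2 : (z2 ^ 2).re = z2.re ^ 2 - z2.im ^ 2 := by simp [pow_two]
  have n1 : normSq (z1 ^ 2) = (z1.re ^ 2 + z1.im ^ 2) ^ 2 := by
    rw [map_pow, normSq_apply]; ring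
  have n2 : normSq (z2 ^ 2) = (z2.re ^ 2 + z2.im ^ 2) ^ 2 := by
    rw [map_pow, normSq_apply]; ring
  obtain ⟨h1, h2, h3⟩ := two_pairs (by rw [im1]; positivity) (by rw [im2]; positivity) hne e1 e2
  rw [re1, re2] at h1
  rw [re1, n1, n2] at h2
  rw [n1, n2] at h3
  constructor
  · have hq3 : q3 = -2 * (z1.re ^ 2 - z1.im ^ 2) - 2 * (z2.re ^ 2 - z2.im ^ 2) := by linarith
    have hq2 : q2 = (z2.re ^ 2 + z2.im ^ 2) ^ 2 + (z1.re ^ 2 + z1.im ^ 2) ^ 2
        + 4 * (z1.re ^ 2 - z1.im ^ 2) * (z2.re ^ 2 - z2.im ^ 2) := by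
      rw [hq3] at h2
      linarith
    rw [hq2, hq3]
    ring
  · rw [h3]; ring

/-! ### A sufficient condition for monotonic zeros -/

/-- location of the zeros of `q(z²)` in the first quadrant -/
lemma location {r q2 q1 q0 : ℝ} (hr : |r| ≤ 1 / 1000) (h2a : 19 / 10 ≤ q2) (h2b : q2 ≤ 21 / 10)
    (h1a : 9 / 10 ≤ q1) (h1b : q1 ≤ 11 / 10) (h0a : 9 / 10 ≤ q0) (h0b : q0 ≤ 11 / 10)
    {z : ℂ} (hz : z ∈ Q) (h : qf r q2 q1 q0 (z ^ 2) = 0) :
    0 < z.re ∧ 0 < z.im ∧ 1 / 1000 < z.re ^ 2 ∧ 1 / 1000 < z.im ^ 2 := by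
  obtain ⟨hr1, hr2⟩ := abs_le.1 hr
  have hre : (z ^ 2).re = z.re ^ 2 - z.im ^ 2 := by simp [pow_two]
  have him : (z ^ 2).im = 2 * z.re * z.im := by simp [pow_two]; ring
  have hn : normSq (z ^ 2) = (z.re ^ 2 + z.im ^ 2) ^ 2 := by
    rw [map_pow, normSq_apply]; ring
  -- no real roots
  have hne : (z ^ 2).im ≠ 0 := by
    intro h0
    have hw : z ^ 2 = (((z ^ 2).re : ℝ) : ℂ) := Complex.ext (by simp) (by simpa using h0)
    rw [hw] at h
    set x := (z ^ 2).re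
    have h1 : x ^ 4 + r * x ^ 3 + q2 * x ^ 2 + q1 * x + q0 = 0 := by
      unfold qf at h
      exact_mod_cast h
    have h2 : (x ^ 2 + r * x / 2) ^ 2 + (q2 - r ^ 2 / 4) * x ^ 2 + q1 * x + q0 = 0 := by
      nlinarith
    have h3 : r ^ 2 ≤ 1 / 1000 := by nlinarith
    have h4 : 0 < (q2 - r ^ 2 / 4) * x ^ 2 + q1 * x + q0 := by
      have h5 : (1 : ℝ) * x ^ 2 ≤ (q2 - r ^ 2 / 4) * x ^ 2 := by
        apply mul_le_mul_of_nonneg_right _ (sq_nonneg x); linarith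
      nlinarith [sq_nonneg (x + q1 / 2), sq_nonneg q1]
    nlinarith [sq_nonneg (x ^ 2 + r * x / 2)]
  have hre0 : z.re ≠ 0 := by
    intro h0; apply hne; rw [him, h0]; ring
  have him0 : z.im ≠ 0 := by
    intro h0; apply hne; rw [him, h0]; ring
  have ha : 0 < z.re := lt_of_le_of_ne hz.1 (Ne.symm hre0)
  have hb : 0 < z.im := lt_of_le_of_ne hz.2 (Ne.symm him0)
  obtain ⟨e1, e0, -⟩ := quartic_div hne h
  rw [hre, hn] at e1 e0
  set A := z.re ^ 2 with hA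
  set B := z.im ^ 2 with hB
  have hApos : 0 < A := by positivity
  have hBpos : 0 < B := by positivity
  set R := A + B with hR
  set u := A - B with hu
  have hRpos : 0 < R := by positivity
  have hu1 : u ≤ R := by rw [hu, hR]; linarith
  have hu2 : -R ≤ u := by rw [hu, hR]; linarith
  set s := q2 - R ^ 2 + 2 * u * (r + 2 * u) with hs
  have hR2 : 0 < R ^ 2 := by positivity
  have hspos : 0 < s := by
    by_contra hcon
    push Not at hcon
    nlinarith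
  have hu3 : u ^ 2 ≤ R ^ 2 := by nlinarith
  have hur : |u * r| ≤ R / 1000 := by
    rw [abs_mul]
    have : |u| ≤ R := abs_le.2 ⟨hu2, hu1⟩
    calc |u| * |r| ≤ R * (1 / 1000) := mul_le_mul this hr (abs_nonneg _) hRpos.le
      _ = R / 1000 := by ring
  obtain ⟨hur1, hur2⟩ := abs_le.1 hur
  -- `R ≥ 1/2`
  have hRhalf : 1 / 2 ≤ R := by
    by_contra hcon
    push Not at hcon
    have h1 : s ≤ 29 / 10 := by
      rw [hs]; nlinarith
    have h2 : R ^ 2 ≤ 1 / 4 := by nlinarith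
    have h3 : s * R ^ 2 ≤ 29 / 10 * (1 / 4) :=
      mul_le_mul h1 h2 hR2.le (by norm_num)
    linarith
  -- consequence of `|u|` close to `R`
  have hbig : R - 2 / 1000 ≤ |u| → 26 / 10 ≤ s ∧ R ^ 2 ≤ 43 / 100 := by
    intro hcon
    have h1 : (R - 2 / 1000) ^ 2 ≤ u ^ 2 := by
      rw [← sq_abs u]
      exact pow_le_pow_left₀ (by linarith) hcon 2
    have h2 : 26 / 10 ≤ s := by
      rw [hs]; nlinarith
    refine ⟨h2, ?_⟩
    by_contra h3
    push Not at h3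
    nlinarith
  refine ⟨ha, hb, ?_, ?_⟩
  · by_contra hcon
    push Not at hcon
    have hneg : u ≤ -(R - 2 / 1000) := by rw [hu, hR]; linarith
    have habs : R - 2 / 1000 ≤ |u| := by
      have := neg_abs_le u; linarith
    obtain ⟨h1, h2⟩ := hbig habs
    have h3 : q1 = 2 * (-u) * (s - R ^ 2) + r * R ^ 2 := by rw [e1]; ring
    have h4 : 49 / 100 ≤ -u := by linarith
    have h5 : 2 ≤ s - R ^ 2 := by linarith
    have h6 : 49 / 100 * 2 ≤ (-u) * (s - R ^ 2) :=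
      mul_le_mul h4 h5 (by norm_num) (by linarith)
    have h7 : -(1 / 1000) ≤ r * R ^ 2 := by nlinarith
    linarith
  · by_contra hcon
    push Not at hcon
    have hpos : R - 2 / 1000 ≤ u := by rw [hu, hR]; linarith
    have habs : R - 2 / 1000 ≤ |u| := by
      have := le_abs_self u; linarith
    obtain ⟨h1, h2⟩ := hbig habs
    have h3 : q1 = -(2 * u * (s - R ^ 2)) + r * R ^ 2 := by rw [e1]; ring
    have h4 : 49 / 100 ≤ u := by linarith
    have h5 : 2 ≤ s - R ^ 2 := by linarith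
    have h6 : 49 / 100 * 2 ≤ u * (s - R ^ 2) :=
      mul_le_mul h4 h5 (by norm_num) (by linarith)
    have h7 : r * R ^ 2 ≤ 1 / 1000 := by nlinarith
    linarith

lemma mono_of {r q2 q1 q0 : ℝ} (hr : |r| ≤ 1 / 1000) (h2a : 19 / 10 ≤ q2) (h2b : q2 ≤ 21 / 10)
    (h1a : 9 / 10 ≤ q1) (h1b : q1 ≤ 11 / 10) (h0a : 9 / 10 ≤ q0) (h0b : q0 ≤ 11 / 10)
    (hM : 64 * q0 < (4 * q2 - r ^ 2) ^ 2) {α β : ℂ} (hα : α ∈ Q) (hβ : β ∈ Q)
    (eα : (α ^ 2 - r) * qf r q2 q1 q0 (α ^ 2) = 0)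
    (eβ : (β ^ 2 - r) * qf r q2 q1 q0 (β ^ 2) = 0) :
    (α ≠ β → α.re ≠ β.re) ∧ (α.re < β.re → α.im ≤ β.im) := by
  obtain ⟨hr1, hr2⟩ := abs_le.1 hr
  -- the special zero
  have special : ∀ z : ℂ, z ∈ Q → z ^ 2 - r = 0 →
      (z.re = 0 ∧ z.im ^ 2 = -r) ∨ (z.im = 0 ∧ z.re ^ 2 = r) := by
    intro z _ hz0
    have h1 := congrArg Complex.re hz0
    have h2 := congrArg Complex.im hz0
    simp [pow_two] at h1 h2
    have h3 : z.re * z.im = 0 := by linarith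
    rcases mul_eq_zero.1 h3 with h4 | h4
    · left; refine ⟨h4, ?_⟩; rw [h4] at h1; nlinarith
    · right; refine ⟨h4, ?_⟩; rw [h4] at h1; nlinarith
  rcases mul_eq_zero.1 eα with hα0 | hα0 <;> rcases mul_eq_zero.1 eβ with hβ0 | hβ0
  · -- both special
    have hab : α = β := by
      have h1 : (α - β) * (α + β) = 0 := by linear_combination hα0 - hβ0
      rcases mul_eq_zero.1 h1 with h2 | h2
      · exact sub_eq_zero.1 h2
      · have h3 := congrArg Complex.re h2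
        have h4 := congrArg Complex.im h2
        simp at h3 h4
        have a1 := hα.1
        have a2 := hα.2
        have b1 := hβ.1
        have b2 := hβ.2
        exact Complex.ext (by linarith) (by linarith)
    exact ⟨fun h => absurd hab h, fun h => by rw [hab]⟩
  · obtain ⟨p1, p2, p3, p4⟩ := location hr h2a h2b h1a h1b h0a h0b hβ hβ0
    rcases special α hα hα0 with ⟨s1, s2⟩ | ⟨s1, s2⟩
    · refine ⟨fun _ h => ?_, fun _ => ?_⟩
      · rw [s1] at h; linarith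
      · exact abs_le_of_sq_le_sq' (by linarith) p2.le |>.2
    · refine ⟨fun _ h => ?_, fun _ => ?_⟩
      · rw [h] at s2; linarith
      · rw [s1]; exact p2.le
  · obtain ⟨p1, p2, p3, p4⟩ := location hr h2a h2b h1a h1b h0a h0b hα hα0
    rcases special β hβ hβ0 with ⟨s1, s2⟩ | ⟨s1, s2⟩
    · refine ⟨fun _ h => ?_, fun h => ?_⟩
      · rw [s1] at h; linarith
      · rw [s1] at h; linarith
    · refine ⟨fun _ h => ?_, fun h => ?_⟩
      · rw [← h] at s2; linarith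
      · exfalso; nlinarith
  · obtain ⟨p1, p2, p3, p4⟩ := location hr h2a h2b h1a h1b h0a h0b hα hα0
    obtain ⟨t1, t2, t3, t4⟩ := location hr h2a h2b h1a h1b h0a h0b hβ hβ0
    by_cases hab : α = β
    · exact ⟨fun h => absurd hab h, fun h => by rw [hab]⟩
    have hne : α ^ 2 ≠ β ^ 2 := by
      intro h
      have h1 : (α - β) * (α + β) = 0 := by linear_combination h
      rcases mul_eq_zero.1 h1 with h2 | h2
      · exact hab (sub_eq_zero.1 h2)
      · have h3 := congrArg Complex.re h2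
        simp at h3
        linarith
    obtain ⟨k1, k2⟩ := key_identity p1 p2 t1 t2 hne hα0 hβ0
    set S := (α.re ^ 2 + α.im ^ 2) * (β.re ^ 2 + β.im ^ 2) with hS
    have hSpos : 0 < S := by positivity
    have hMpos : 0 < 4 * q2 - r ^ 2 := by nlinarith
    have h8 : 8 * S < 4 * q2 - r ^ 2 := by
      have : (8 * S) ^ 2 < (4 * q2 - r ^ 2) ^ 2 := by rw [k2] at hM; nlinarith
      exact lt_of_pow_lt_pow_left₀ 2 hMpos.le this
    have hprod : 0 < (α.im ^ 2 - β.im ^ 2) * (α.re ^ 2 - β.re ^ 2) := by linarith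
    refine ⟨fun _ h => ?_, fun h => ?_⟩
    · rw [h] at hprod; simp at hprod
    · have h9 : α.re ^ 2 - β.re ^ 2 < 0 := by nlinarith
      have h10 : α.im ^ 2 - β.im ^ 2 < 0 := by
        by_contra hcon
        push Not at hcon
        nlinarith
      nlinarith

/-! ### The family -/

/-- coefficient of `z^6` -/
noncomputable def g3 (κ : ℝ) : ℝ := 2 - 1 / 1000000 + 2 * κ
/-- coefficient of `z^4` -/
noncomputable def g2 (y : ℝ) : ℝ := 1 + 27 * y
/-- coefficient of `z^2` -/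
noncomputable def g1 (κ y : ℝ) : ℝ := 1 + 2 * κ + y

/-- the even real polynomial `z^10 + g3 z^6 + g2 z^4 + g1 z^2 + y` -/
noncomputable def p (κ y : ℝ) (z : ℂ) : ℂ :=
  z ^ 10 + (g3 κ : ℂ) * z ^ 6 + (g2 y : ℂ) * z ^ 4 + (g1 κ y : ℂ) * z ^ 2 + (y : ℂ)

lemma exists_root {κ y : ℝ} (hκ : |κ| ≤ 1 / 400) (hy : |y| ≤ 6 / 10000) :
    ∃ r : ℝ, |r| ≤ 11 / 10 * |y| ∧
      r ^ 5 + g3 κ * r ^ 3 + g2 y * r ^ 2 + g1 κ y * r + y = 0 := by
  obtain ⟨k1, k2⟩ := abs_le.1 hκ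
  obtain ⟨y1, y2⟩ := abs_le.1 hy
  set F : ℝ → ℝ := fun r => r ^ 5 + g3 κ * r ^ 3 + g2 y * r ^ 2 + g1 κ y * r + y with hF
  have hFc : Continuous F := by rw [hF]; fun_prop
  have hval : F (-(11 / 10) * y) = y * (1 - 11 / 10 * g1 κ y + (11 / 10) ^ 2 * g2 y * y
      - (11 / 10) ^ 3 * g3 κ * y ^ 2 - (11 / 10) ^ 5 * y ^ 4) := by
    simp only [hF]; ring
  have hbr : 1 - 11 / 10 * g1 κ y + (11 / 10) ^ 2 * g2 y * y
      - (11 / 10) ^ 3 * g3 κ * y ^ 2 - (11 / 10) ^ 5 * y ^ 4 ≤ 0 := by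
    have e1 : 99 / 100 ≤ g1 κ y := by unfold g1; linarith
    have e2 : g2 y * y ≤ 1 / 1000 := by unfold g2; nlinarith
    have e3 : 0 ≤ g3 κ * y ^ 2 := by
      apply mul_nonneg _ (sq_nonneg y); unfold g3; linarith
    have e4 : 0 ≤ y ^ 4 := by positivity
    nlinarith
  have hF0 : F 0 = y := by simp [hF]
  rcases le_total 0 y with h0 | h0
  · have h1 : F (-(11 / 10) * y) ≤ 0 := by
      rw [hval]; exact mul_nonpos_of_nonneg_of_nonpos h0 hbr
    obtain ⟨r, hr, hr0⟩ := intermediate_value_Icc (by linarith : -(11 / 10) * y ≤ 0)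
      hFc.continuousOn ⟨h1, by rw [hF0]; exact h0⟩
    refine ⟨r, ?_, hr0⟩
    rw [abs_of_nonneg h0, abs_le]
    exact ⟨by linarith [hr.1], by linarith [hr.2]⟩
  · have h1 : 0 ≤ F (-(11 / 10) * y) := by
      rw [hval]; exact mul_nonneg_of_nonpos_of_nonpos h0 hbr
    obtain ⟨r, hr, hr0⟩ := intermediate_value_Icc (by linarith : 0 ≤ -(11 / 10) * y)
      hFc.continuousOn ⟨by rw [hF0]; exact h0, h1⟩
    refine ⟨r, ?_, hr0⟩
    rw [abs_of_nonpos h0, abs_le]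
    exact ⟨by linarith [hr.1], by linarith [hr.2]⟩

lemma discr_pos {κ y r : ℝ} (hκ : |κ| ≤ 1 / 400) (hy : |y| ≤ 6 / 10000)
    (hr : |r| ≤ 11 / 10 * |y|)
    (hroot : r ^ 5 + g3 κ * r ^ 3 + g2 y * r ^ 2 + g1 κ y * r + y = 0)
    (hF : 17 / 10 ^ 7 ≤ κ ^ 2 - 2 * κ * y + 25 * y ^ 2) :
    0 < (g3 κ / 2) ^ 2 - g1 κ y - r * g2 y - 5 / 8 * g3 κ * r ^ 2 - 55 / 64 * r ^ 4 := by
  obtain ⟨k1, k2⟩ := abs_le.1 hκ
  set Y := |y| with hY
  have hY0 : 0 ≤ Y := abs_nonneg y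
  have hYsq : Y ^ 2 = y ^ 2 := sq_abs y
  set m : ℝ := 1 / 2000000 with hm
  set G : ℝ := 1 + κ - m with hG
  have hg3 : g3 κ = 2 * G := by rw [hG, hm]; unfold g3; ring
  have hG1 : 99 / 100 ≤ G := by rw [hG, hm]; linarith
  have hG2 : G ≤ 101 / 100 := by rw [hG, hm]; linarith
  set ρ := r + y with hρ
  have hr' : |r| ≤ 66 / 100000 := by linarith
  have hρeq : (1 + r) * ρ = -(r * (2 * κ + 27 * y * r + 2 * G * r ^ 2 + r ^ 4)) := by
    rw [hρ]
    rw [hg3] at hroot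
    unfold g2 g1 at hroot
    linear_combination hroot
  have hr2 : r ^ 2 ≤ 1 / 1000000 := by
    rw [← sq_abs]; nlinarith [abs_nonneg r]
  have hr4 : r ^ 4 ≤ 1 / 1000000 := by nlinarith [sq_nonneg r]
  have hyr : |y * r| ≤ 1 / 1000000 := by
    rw [abs_mul]; nlinarith [abs_nonneg r]
  have hin : |2 * κ + 27 * y * r + 2 * G * r ^ 2 + r ^ 4| ≤ 6 / 1000 := by
    obtain ⟨a1, a2⟩ := abs_le.1 hyr
    have b1 : 0 ≤ G * r ^ 2 := by positivity
    have b2 : G * r ^ 2 ≤ 2 / 1000000 := by nlinarith [sq_nonneg r]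
    have b3 : 0 ≤ r ^ 4 := by positivity
    rw [abs_le]
    constructor <;> linarith
  have hρ1 : |ρ| ≤ Y / 100 := by
    have h1 : |1 + r| * |ρ| = |r| * |2 * κ + 27 * y * r + 2 * G * r ^ 2 + r ^ 4| := by
      rw [← abs_mul, hρeq, abs_neg, abs_mul]
    have h2 : 999 / 1000 ≤ |1 + r| := by
      have := (abs_le.1 hr').1
      rw [abs_of_pos (by linarith)]; linarith
    have h3 : |r| * |2 * κ + 27 * y * r + 2 * G * r ^ 2 + r ^ 4| ≤ (11 / 10 * Y) * (6 / 1000) :=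
      mul_le_mul hr hin (abs_nonneg _) (by positivity)
    have h4 : 999 / 1000 * |ρ| ≤ |1 + r| * |ρ| := by gcongr
    nlinarith
  -- the exact expansion
  have hexp : (g3 κ / 2) ^ 2 - g1 κ y - r * g2 y - 5 / 8 * g3 κ * r ^ 2 - 55 / 64 * r ^ 4
      = κ ^ 2 - 2 * κ * y + 27 * y ^ 2 - 2 * m * (1 + κ) + m ^ 2
        + (2 * (κ * ρ) + r * ρ + 27 * (y * r) * r + 2 * G * r ^ 2 * r + r ^ 4 * r
          - 27 * (y * ρ)) - 5 / 4 * G * r ^ 2 - 55 / 64 * r ^ 4 := by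
    rw [hg3]
    unfold g2 g1
    have : (1 + κ - m) ^ 2 = G ^ 2 := by rw [hG]
    rw [hρ] at hρeq ⊢
    linear_combination (-1 : ℝ) * hρeq - this
  rw [hexp]
  -- bounds for the error terms
  have hY2 : 0 ≤ Y ^ 2 := sq_nonneg Y
  have t1 : |κ * ρ| ≤ |κ| * Y / 100 := by
    rw [abs_mul]; nlinarith [abs_nonneg κ]
  have t1' : |κ| * Y ≤ (κ ^ 2 / 10 + 10 * Y ^ 2) / 2 := by
    rw [← sq_abs κ]; nlinarith [sq_nonneg (|κ| - 10 * Y)]
  have hrY : |r| ^ 2 ≤ 121 / 100 * Y ^ 2 := by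
    calc |r| ^ 2 ≤ (11 / 10 * Y) ^ 2 := pow_le_pow_left₀ (abs_nonneg r) hr 2
      _ = 121 / 100 * Y ^ 2 := by ring
  have hrY2 : r ^ 2 ≤ 103 / 100 * Y ^ 2 := by
    have h1 : |r| ≤ 101 / 100 * Y := by
      have h2 : r = ρ - y := by rw [hρ]; ring
      calc |r| = |ρ - y| := by rw [← h2]
        _ ≤ |ρ| + |y| := abs_sub _ _
        _ ≤ Y / 100 + Y := by gcongr
        _ = 101 / 100 * Y := by ring
    calc r ^ 2 = |r| ^ 2 := (sq_abs r).symm
      _ ≤ (101 / 100 * Y) ^ 2 := pow_le_pow_left₀ (abs_nonneg r) h1 2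
      _ ≤ 103 / 100 * Y ^ 2 := by nlinarith
  have t2 : |r * ρ| ≤ 2 / 100 * Y ^ 2 := by
    rw [abs_mul]
    calc |r| * |ρ| ≤ (11 / 10 * Y) * (Y / 100) := mul_le_mul hr hρ1 (abs_nonneg _) (by positivity)
      _ ≤ 2 / 100 * Y ^ 2 := by nlinarith
  have t3 : |(y * r) * r| ≤ 1 / 1000 * Y ^ 2 := by
    rw [abs_mul, abs_mul]
    have h1 : Y * |r| ≤ 11 / 10 * Y ^ 2 := by nlinarith
    calc Y * |r| * |r| ≤ (11 / 10 * Y ^ 2) * (66 / 100000) :=
          mul_le_mul h1 hr' (abs_nonneg _) (by positivity)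
      _ ≤ 1 / 1000 * Y ^ 2 := by nlinarith
  have t4 : |G * r ^ 2 * r| ≤ 1 / 1000 * Y ^ 2 := by
    rw [abs_mul, abs_of_nonneg (by positivity : 0 ≤ G * r ^ 2)]
    have h1 : G * r ^ 2 ≤ 101 / 100 * (103 / 100 * Y ^ 2) := mul_le_mul hG2 hrY2 (sq_nonneg r)
      (by norm_num)
    calc G * r ^ 2 * |r| ≤ (101 / 100 * (103 / 100 * Y ^ 2)) * (66 / 100000) :=
          mul_le_mul h1 hr' (abs_nonneg _) (by positivity)
      _ ≤ 1 / 1000 * Y ^ 2 := by nlinarith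
  have hr4Y : r ^ 4 ≤ 1 / 1000 * Y ^ 2 := by
    have : r ^ 4 = r ^ 2 * r ^ 2 := by ring
    rw [this]
    calc r ^ 2 * r ^ 2 ≤ (1 / 1000000) * (103 / 100 * Y ^ 2) :=
          mul_le_mul hr2 hrY2 (sq_nonneg r) (by norm_num)
      _ ≤ 1 / 1000 * Y ^ 2 := by nlinarith
  have t5 : |r ^ 4 * r| ≤ 1 / 1000 * Y ^ 2 := by
    rw [abs_mul, abs_of_nonneg (by positivity : 0 ≤ r ^ 4)]
    calc r ^ 4 * |r| ≤ (1 / 1000 * Y ^ 2) * 1 :=
          mul_le_mul hr4Y (by linarith) (abs_nonneg _) (by positivity)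
      _ = 1 / 1000 * Y ^ 2 := by ring
  have t6 : |y * ρ| ≤ 1 / 100 * Y ^ 2 := by
    rw [abs_mul]; nlinarith
  have t7 : G * r ^ 2 ≤ 105 / 100 * Y ^ 2 := by
    calc G * r ^ 2 ≤ 101 / 100 * (103 / 100 * Y ^ 2) := mul_le_mul hG2 hrY2 (sq_nonneg r)
          (by norm_num)
      _ ≤ 105 / 100 * Y ^ 2 := by nlinarith
  have hκ2 : κ ^ 2 ≤ 1 / 160000 := by nlinarith
  obtain ⟨u1, -⟩ := abs_le.1 t1
  obtain ⟨u2, -⟩ := abs_le.1 t2
  obtain ⟨u3, -⟩ := abs_le.1 t3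
  obtain ⟨u4, -⟩ := abs_le.1 t4
  obtain ⟨u5, -⟩ := abs_le.1 t5
  obtain ⟨-, u6⟩ := abs_le.1 t6
  have hm1 : 2 * m * (1 + κ) ≤ 101 / 10 ^ 8 := by
    rw [hm]; linarith
  have hm2 : 0 ≤ m ^ 2 := sq_nonneg m
  rw [← hYsq] at hF ⊢
  have hF' : 17 / 10 ^ 7 ≤ κ ^ 2 - 2 * κ * y + 25 * Y ^ 2 := hF
  nlinarith

/-- Good points of the family. -/
lemma good {κ y : ℝ} (hκ : |κ| ≤ 1 / 400) (hy : |y| ≤ 6 / 10000)
    (hF : 17 / 10 ^ 7 ≤ κ ^ 2 - 2 * κ * y + 25 * y ^ 2) : MonotonicZeros (p κ y) := by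
  obtain ⟨k1, k2⟩ := abs_le.1 hκ
  obtain ⟨y1, y2⟩ := abs_le.1 hy
  obtain ⟨r, hr, hroot⟩ := exists_root hκ hy
  have hN := discr_pos hκ hy hr hroot hF
  have hr' : |r| ≤ 66 / 100000 := by linarith
  obtain ⟨r1, r2⟩ := abs_le.1 hr'
  have hrsq : r ^ 2 ≤ 1 / 1000000 := by
    rw [← sq_abs]; nlinarith [abs_nonneg r]
  have hrsq0 : 0 ≤ r ^ 2 := sq_nonneg r
  set q2 := g3 κ + r ^ 2 with hq2
  set q1 := g2 y + r * q2 with hq1
  set q0 := g1 κ y + r * q1 with hq0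
  have a1 : 199 / 100 ≤ q2 := by rw [hq2]; unfold g3; linarith
  have a2 : q2 ≤ 201 / 100 := by rw [hq2]; unfold g3; linarith
  have b0 : |r * q2| ≤ 2 / 1000 := by
    rw [abs_mul, abs_of_pos (by linarith : 0 < q2)]
    nlinarith [abs_nonneg r]
  obtain ⟨b1, b2⟩ := abs_le.1 b0
  have a3 : 97 / 100 ≤ q1 := by rw [hq1]; unfold g2; linarith
  have a4 : q1 ≤ 103 / 100 := by rw [hq1]; unfold g2; linarith
  have c0 : |r * q1| ≤ 2 / 1000 := by
    rw [abs_mul, abs_of_pos (by linarith : 0 < q1)]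
    nlinarith [abs_nonneg r]
  obtain ⟨c1, c2⟩ := abs_le.1 c0
  have a5 : 98 / 100 ≤ q0 := by rw [hq0]; unfold g1; linarith
  have a6 : q0 ≤ 102 / 100 := by rw [hq0]; unfold g1; linarith
  have hM : 64 * q0 < (4 * q2 - r ^ 2) ^ 2 := by
    have : (4 * q2 - r ^ 2) ^ 2 - 64 * q0 = 64 * ((g3 κ / 2) ^ 2 - g1 κ y - r * g2 y
        - 5 / 8 * g3 κ * r ^ 2 - 55 / 64 * r ^ 4) := by
      rw [hq0, hq1, hq2]; ring
    nlinarith
  have hfac : ∀ z : ℂ, p κ y z = (z ^ 2 - r) * qf r q2 q1 q0 (z ^ 2) := by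
    intro z
    have hy' : y = -(r * q0) := by
      rw [hq0, hq1, hq2]; linear_combination hroot
    have hg1 : g1 κ y = q0 - r * q1 := by rw [hq0]; ring
    have hg2 : g2 y = q1 - r * q2 := by rw [hq1]; ring
    have hg3 : g3 κ = q2 - r ^ 2 := by rw [hq2]; ring
    unfold p qf
    rw [hg1, hg2, hg3]
    have hyc : (y : ℂ) = -((r : ℂ) * q0) := by rw [hy']; push_cast; rfl
    rw [hyc]
    push_cast
    ring
  refine ⟨⟨1, ?_⟩, ?_⟩
  · intro h
    unfold p at h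
    have h1 : (1 : ℝ) + g3 κ + g2 y + g1 κ y + y = 0 := by
      have : (((1 : ℝ) + g3 κ + g2 y + g1 κ y + y : ℝ) : ℂ) = 0 := by
        push_cast
        linear_combination h
      exact_mod_cast this
    unfold g3 g2 g1 at h1
    linarith
  · intro α hα β hβ eα eβ
    rw [hfac] at eα eβ
    exact mono_of (by linarith) (by linarith) (by linarith) (by linarith) (by linarith)
      (by linarith) (by linarith) hM hα hβ eα eβ

/-! ### The bad point -/

/-- Square roots in the open first quadrant. -/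
lemma exists_sqrt {w : ℂ} (hw : 0 < w.im) : ∃ z : ℂ, 0 < z.re ∧ 0 < z.im ∧ z ^ 2 = w := by
  obtain ⟨z, hz⟩ := IsAlgClosed.exists_pow_nat_eq w (n := 2) (by norm_num)
  have him : 2 * z.re * z.im = w.im := by
    rw [← hz]; simp [pow_two]; ring
  have hpos : 0 < z.re * z.im := by linarith
  rcases pos_and_pos_or_neg_and_neg_of_mul_pos hpos with ⟨h1, h2⟩ | ⟨h1, h2⟩
  · exact ⟨z, h1, h2, hz⟩
  · exact ⟨-z, by simpa using h1, by simpa using h2, by rw [neg_sq, hz]⟩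

lemma qf_conj (q3 q2 q1 q0 : ℝ) (w : ℂ) :
    qf q3 q2 q1 q0 (starRingEnd ℂ w) = starRingEnd ℂ (qf q3 q2 q1 q0 w) := by
  simp [qf]

lemma bad : ¬ MonotonicZeros (p 0 0) := by
  rintro ⟨-, hmono⟩
  set c : ℝ := 2 - 1 / 1000000 with hc
  -- no real zeros
  have hreal : ∀ x : ℝ, x ^ 4 + 0 * x ^ 3 + c * x ^ 2 + 1 * x + 1 ≠ 0 := by
    intro x h
    rw [hc] at h
    nlinarith [sq_nonneg (x ^ 2), sq_nonneg (x + 1 / 2), sq_nonneg x]
  have himne : ∀ w : ℂ, qf 0 c 1 1 w = 0 → w.im ≠ 0 := by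
    intro w hw h0
    have hw' : w = ((w.re : ℝ) : ℂ) := Complex.ext (by simp) (by simpa using h0)
    rw [hw'] at hw
    apply hreal w.re
    unfold qf at hw
    exact_mod_cast hw
  have hup : ∀ w : ℂ, qf 0 c 1 1 w = 0 → ∃ v : ℂ, 0 < v.im ∧ qf 0 c 1 1 v = 0 ∧
      v.re = w.re ∧ normSq v = normSq w := by
    intro w hw
    rcases lt_or_gt_of_ne (himne w hw) with h | h
    · refine ⟨starRingEnd ℂ w, by simpa using h, ?_, by simp, by simp⟩
      rw [qf_conj, hw, map_zero]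
    · exact ⟨w, h, hw, rfl, rfl⟩
  -- first root
  obtain ⟨w0, hw0⟩ : ∃ w : ℂ, qf 0 c 1 1 w = 0 := by
    let P : Polynomial ℂ := Polynomial.X ^ 4 + (Polynomial.C (c : ℂ) * Polynomial.X ^ 2
      + Polynomial.X + 1)
    have hdeg : P.natDegree = 4 := by
      simp only [P]
      compute_degree!
    have hP : P.degree ≠ 0 := by
      intro h
      rw [Polynomial.natDegree_eq_of_degree_eq_some h] at hdeg
      norm_num at hdeg
    obtain ⟨w, hw⟩ := IsAlgClosed.exists_root P hP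
    refine ⟨w, ?_⟩
    rw [Polynomial.IsRoot.def] at hw
    simp only [P, Polynomial.eval_add, Polynomial.eval_mul, Polynomial.eval_pow,
      Polynomial.eval_X, Polynomial.eval_C, Polynomial.eval_one] at hw
    unfold qf
    push_cast
    linear_combination hw
  obtain ⟨w1, h1im, hw1, -, -⟩ := hup w0 hw0
  obtain ⟨-, e0, hfac⟩ := quartic_div h1im.ne' hw1
  -- second root
  set P1 : ℝ := 0 + 2 * w1.re with hP1
  set s1 : ℝ := c - normSq w1 + 2 * w1.re * (0 + 2 * w1.re) with hs1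
  obtain ⟨v0, hv0⟩ : ∃ v : ℂ, v ^ 2 + (P1 : ℂ) * v + (s1 : ℂ) = 0 := by
    obtain ⟨d, hd⟩ := IsAlgClosed.exists_pow_nat_eq ((P1 : ℂ) ^ 2 - 4 * s1) (n := 2)
      (by norm_num)
    refine ⟨(-(P1 : ℂ) + d) / 2, ?_⟩
    linear_combination (1 / 4) * hd
  have hv0q : qf 0 c 1 1 v0 = 0 := by rw [hfac, hv0, mul_zero]
  obtain ⟨w2, h2im, hw2, h2re, h2n⟩ := hup v0 hv0q
  obtain ⟨p1, p2⟩ := quad_root (himne v0 hv0q) hv0
  rw [← h2re] at p1
  rw [← h2n] at p2
  obtain ⟨z1, a1, b1, hz1⟩ := exists_sqrt h1im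
  obtain ⟨z2, a2, b2, hz2⟩ := exists_sqrt h2im
  -- the identity
  have re1 : w1.re = z1.re ^ 2 - z1.im ^ 2 := by rw [← hz1]; simp [pow_two]
  have re2 : w2.re = z2.re ^ 2 - z2.im ^ 2 := by rw [← hz2]; simp [pow_two]
  have n1 : normSq w1 = (z1.re ^ 2 + z1.im ^ 2) ^ 2 := by
    rw [← hz1, map_pow, normSq_apply]; ring
  have n2 : normSq w2 = (z2.re ^ 2 + z2.im ^ 2) ^ 2 := by
    rw [← hz2, map_pow, normSq_apply]; ring
  have hS : ((z1.re ^ 2 + z1.im ^ 2) * (z2.re ^ 2 + z2.im ^ 2)) = 1 := by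
    have h1 : ((z1.re ^ 2 + z1.im ^ 2) * (z2.re ^ 2 + z2.im ^ 2)) ^ 2 = 1 := by
      rw [mul_pow, ← n1, ← n2]
      rw [p2] at e0
      linarith
    have h2 : 0 < ((z1.re ^ 2 + z1.im ^ 2) * (z2.re ^ 2 + z2.im ^ 2)) := by positivity
    nlinarith
  have hsum : w1.re = -w2.re := by rw [hP1] at p1; linarith
  have hcid : c = normSq w1 + normSq w2 - 4 * w1.re ^ 2 := by
    rw [hs1] at p2; nlinarith
  have hid : 4 * c - 8 = 16 * ((z1.im ^ 2 - z2.im ^ 2) * (z1.re ^ 2 - z2.re ^ 2)) := by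
    have h3 : 4 * c - 8 * ((z1.re ^ 2 + z1.im ^ 2) * (z2.re ^ 2 + z2.im ^ 2))
        = 16 * ((z1.im ^ 2 - z2.im ^ 2) * (z1.re ^ 2 - z2.re ^ 2)) := by
      have h4 : 4 * w1.re ^ 2 = -4 * w1.re * w2.re := by rw [hsum]; ring
      have h5 : (w1.re + w2.re) ^ 2 = 0 := by rw [hsum]; ring
      rw [hcid, n1, n2]
      rw [re1, re2] at h4 h5
      rw [re1]
      linear_combination (-4 : ℝ) * h4 + 4 * h5
    rw [hS] at h3
    linarith
  have hprod : (z1.im ^ 2 - z2.im ^ 2) * (z1.re ^ 2 - z2.re ^ 2) < 0 := by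
    rw [hc] at hid; linarith
  have hpz : ∀ z : ℂ, qf 0 c 1 1 (z ^ 2) = 0 → p 0 0 z = 0 := by
    intro z hz
    unfold qf at hz
    unfold p g3 g2 g1
    rw [hc] at hz
    push_cast at hz ⊢
    linear_combination z ^ 2 * hz
  have hz1p : p 0 0 z1 = 0 := hpz z1 (by rw [hz1]; exact hw1)
  have hz2p : p 0 0 z2 = 0 := hpz z2 (by rw [hz2]; exact hw2)
  rcases lt_trichotomy z1.re z2.re with h | h | h
  · have := (hmono z1 ⟨a1.le, b1.le⟩ z2 ⟨a2.le, b2.le⟩ hz1p hz2p).2 h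
    nlinarith [mul_nonneg (sub_nonneg.2 this) (sub_nonneg.2 h.le),
      mul_pos (add_pos b1 b2) (add_pos a1 a2)]
  · rw [h] at hprod; simp at hprod
  · have := (hmono z2 ⟨a2.le, b2.le⟩ z1 ⟨a1.le, b1.le⟩ hz2p hz1p).2 h
    nlinarith [mul_nonneg (sub_nonneg.2 this) (sub_nonneg.2 h.le),
      mul_pos (add_pos b1 b2) (add_pos a1 a2)]

/-! ### The counterexample -/

lemma mono_scale {F : ℂ → ℂ} {s : ℂ} (hs : s ≠ 0) :
    MonotonicZeros (fun z => s * F z) ↔ MonotonicZeros F := by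
  unfold MonotonicZeros
  have h1 : (∃ z, s * F z ≠ 0) ↔ ∃ z, F z ≠ 0 := by
    constructor
    · rintro ⟨z, hz⟩
      exact ⟨z, fun h => hz (by rw [h, mul_zero])⟩
    · rintro ⟨z, hz⟩
      exact ⟨z, mul_ne_zero hs hz⟩
  have h2 : ∀ z, s * F z = 0 ↔ F z = 0 := by
    intro z
    constructor
    · intro h
      exact (mul_eq_zero.1 h).resolve_left hs
    · intro h
      rw [h, mul_zero]
  simp only [h1, h2]

lemma pair {κ1 y1 κ2 y2 : ℝ} (hk1 : |κ1| ≤ 1 / 400) (hy1 : |y1| ≤ 6 / 10000)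
    (hk2 : |κ2| ≤ 1 / 400) (hy2 : |y2| ≤ 6 / 10000)
    (hF : ∀ t : ℝ, 0 ≤ t → t ≤ 1 → 17 / 10 ^ 7 ≤ (t * κ1 + (1 - t) * κ2) ^ 2
      - 2 * (t * κ1 + (1 - t) * κ2) * (t * y1 + (1 - t) * y2) + 25 * (t * y1 + (1 - t) * y2) ^ 2) :
    Compatible ![p κ1 y1, p κ2 y2] := by
  intro c hc hne
  have h0 := hc 0
  have h1 := hc 1
  have hs : 0 < c 0 + c 1 := by
    by_contra hcon
    have e0 : c 0 = 0 := by linarith
    have e1 : c 1 = 0 := by linarith
    obtain ⟨z, hz⟩ := hne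
    apply hz
    rw [Fin.sum_univ_two, e0, e1]
    simp
  set s := c 0 + c 1 with hsdef
  set t := c 0 / s with ht
  have ht0 : 0 ≤ t := div_nonneg h0 hs.le
  have ht1 : t ≤ 1 := by rw [ht, div_le_one hs]; linarith
  have e0 : c 0 = s * t := by rw [ht]; field_simp
  have e1 : c 1 = s * (1 - t) := by rw [mul_sub, ← e0]; linarith
  have key : (fun z => ∑ j, (c j : ℂ) * (![p κ1 y1, p κ2 y2] : Fin 2 → ℂ → ℂ) j z)
      = fun z => (s : ℂ) * p (t * κ1 + (1 - t) * κ2) (t * y1 + (1 - t) * y2) z := by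
    funext z
    rw [Fin.sum_univ_two, e0, e1]
    simp only [Matrix.cons_val_zero, Matrix.cons_val_one]
    unfold p g3 g2 g1
    push_cast
    ring
  rw [key, mono_scale (by exact_mod_cast hs.ne')]
  obtain ⟨a1, a2⟩ := abs_le.1 hk1
  obtain ⟨a3, a4⟩ := abs_le.1 hk2
  obtain ⟨b1, b2⟩ := abs_le.1 hy1
  obtain ⟨b3, b4⟩ := abs_le.1 hy2
  have ht1' : 0 ≤ 1 - t := by linarith
  refine good ?_ ?_ (hF t ht0 ht1)
  · rw [abs_le]
    constructor <;> nlinarith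
  · rw [abs_le]
    constructor <;> nlinarith

lemma p_nice (κ y : ℝ) : Differentiable ℂ (p κ y) ∧ (∀ z, p κ y (-z) = p κ y z) ∧
    ∀ x : ℝ, (p κ y (x : ℂ)).im = 0 := by
  refine ⟨?_, ?_, ?_⟩
  · unfold p; fun_prop
  · intro z; unfold p; ring
  · intro x
    have : p κ y (x : ℂ) = ((x ^ 10 + g3 κ * x ^ 6 + g2 y * x ^ 4 + g1 κ y * x ^ 2 + y : ℝ) : ℂ) := by
      unfold p; push_cast; ring
    rw [this, Complex.ofReal_im]

/-- Three even real polynomials, each with monotonic zeros in the closed first quadrant and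
pairwise compatible, which are not compatible. -/
theorem result : ∃ (k : ℕ) (f : Fin k → ℂ → ℂ), 3 ≤ k ∧
    (∀ j, Differentiable ℂ (f j) ∧ (∀ z, f j (-z) = f j z) ∧ ∀ x : ℝ, (f j (x : ℂ)).im = 0) ∧
    (∀ j, MonotonicZeros (f j)) ∧
    (∀ i j, i < j → Compatible ![f i, f j]) ∧
    ¬ Compatible f := by
  refine ⟨3, ![p (-1 / 400) (-3 / 10000), p (1 / 400) (-3 / 10000), p 0 (6 / 10000)], le_rfl,
    ?_, ?_, ?_, ?_⟩
  · intro j
    fin_cases j
    · exact p_nice _ _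
    · exact p_nice _ _
    · exact p_nice _ _
  · intro j
    fin_cases j
    · exact good (by rw [abs_le]; constructor <;> norm_num)
        (by rw [abs_le]; constructor <;> norm_num) (by norm_num)
    · exact good (by rw [abs_le]; constructor <;> norm_num)
        (by rw [abs_le]; constructor <;> norm_num) (by norm_num)
    · exact good (by rw [abs_le]; constructor <;> norm_num)
        (by rw [abs_le]; constructor <;> norm_num) (by norm_num)
  · have hAB : Compatible ![p (-1 / 400) (-3 / 10000), p (1 / 400) (-3 / 10000)] := by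
      apply pair (by rw [abs_le]; constructor <;> norm_num)
        (by rw [abs_le]; constructor <;> norm_num) (by rw [abs_le]; constructor <;> norm_num)
        (by rw [abs_le]; constructor <;> norm_num)
      intro t h0 h1
      nlinarith [sq_nonneg (t * (-1 / 400) + (1 - t) * (1 / 400) + 3 / 10000)]
    have hAC : Compatible ![p (-1 / 400) (-3 / 10000), p 0 (6 / 10000)] := by
      apply pair (by rw [abs_le]; constructor <;> norm_num)
        (by rw [abs_le]; constructor <;> norm_num) (by rw [abs_le]; constructor <;> norm_num)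
        (by rw [abs_le]; constructor <;> norm_num)
      intro t h0 h1
      nlinarith [sq_nonneg (t - 6 / 11)]
    have hBC : Compatible ![p (1 / 400) (-3 / 10000), p 0 (6 / 10000)] := by
      apply pair (by rw [abs_le]; constructor <;> norm_num)
        (by rw [abs_le]; constructor <;> norm_num) (by rw [abs_le]; constructor <;> norm_num)
        (by rw [abs_le]; constructor <;> norm_num)
      intro t h0 h1
      nlinarith [sq_nonneg (t - 15 / 31)]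
    intro i j hij
    fin_cases i <;> fin_cases j
    · exact absurd hij (by decide)
    · exact hAB
    · exact hAC
    · exact absurd hij (by decide)
    · exact absurd hij (by decide)
    · exact hBC
    · exact absurd hij (by decide)
    · exact absurd hij (by decide)
    · exact absurd hij (by decide)
  · intro hcomp
    have key : (fun z => ∑ j, (((fun _ => 1 : Fin 3 → ℝ) j : ℝ) : ℂ) *
        (![p (-1 / 400) (-3 / 10000), p (1 / 400) (-3 / 10000), p 0 (6 / 10000)] :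
          Fin 3 → ℂ → ℂ) j z) = fun z => (3 : ℂ) * p 0 0 z := by
      funext z
      rw [Fin.sum_univ_three]
      simp only [Matrix.cons_val_zero, Matrix.cons_val_one, Matrix.cons_val_two,
        Matrix.head_cons, Matrix.tail_cons]
      unfold p g3 g2 g1
      push_cast
      ring
    have h1 := hcomp (fun _ => 1) (fun _ => zero_le_one) ⟨1, by
      have := congrFun key 1
      simp only at this
      rw [this]
      unfold p g3 g2 g1
      push_cast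
      norm_num⟩
    rw [key, mono_scale (by norm_num)] at h1
    exact bad h1

end Pool.Agent.Results.MP_c4a6c0_an.PairwiseNotCompatible
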